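import Pool.Agent.Y775.W3.All
import Pool.Agent.H39R2.GonP.Bridge
import Pool.Agent.H39R2.Gon.Main
import Pool.Agent.TH358.GP.Cls

/-!
# The two top cohomology groups of `Γ(F,n) ⊗ ℚ` from `SpanDual F 0` and `SpanDual F 1`
-/

set_option autoImplicit false

namespace Pool.Agent.N689.GA

open H39Gon H39Gon.E2

section Main

variable (k : Type) [Field k] (p : ℕ) [Fact p.Prime] [CharP k p]
    (hk : ∀ c : k, ∃ r : ℕ, 1 ≤ r ∧ c ^ p ^ r = c)
    (hsd0 : SpanDual (RatFunc k) 0) (hsd1 : SpanDual (RatFunc k) 1)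
    (D : Differentials (RatFunc k))

include hk hsd1 in
theorem step_e1 (j : ℕ) (φ : TQ (RatFunc k) 2 j →ₗ[ℚ] ℚ)
    (hφ : ∀ (i : ℕ) (hi : j = i + 1) (x : RatFunc k) (y : Fin i → UV (RatFunc k)), x ≠ 0 →
      φ (tq (RatFunc k) 2 j (some x)
        ((Fin.cons (cl x) y : Fin (i + 1) → UV (RatFunc k)) ∘ Fin.cast hi)) = 0) :
    ∃ ψ : LQ (RatFunc k) (j + 2) →ₗ[ℚ] ℚ, ∀ v, φ v = ψ (D.e j v) := by
  obtain ⟨Ψ, hΨ, hev⟩ := ev_surj k p hk 0 (toTheta φ) (fun r hr => toTheta_R φ r hr)
  have hnone : ∀ y, φ (tq (RatFunc k) 2 j none y) = 0 := by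
    intro y
    rw [← toTheta_apply, hev, ev_none]
    rfl
  have hsome : ∀ x y, φ (tq (RatFunc k) 2 j (some x) y) =
      Ψ (cl (1 - x)) (cl x) (fun _ => cl x) y := by
    intro x y
    rw [← toTheta_apply, hev, ev_some]
  let Q : UV (RatFunc k) →ₗ[ℤ] (UV (RatFunc k) →ₗ[ℤ] (UV (RatFunc k) [⋀^Fin j]→ₗ[ℤ] ℚ)) :=
    LinearMap.mk₂ ℤ (fun s v => Ψ v s Fin.elim0)
      (fun a b c => by simp) (fun a b c => by simp) (fun a b c => by simp)
      (fun a b c => by simp)
  have hQ : ∀ s v, Q s v = Ψ v s (fun _ => s) := by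
    intro s v
    change Ψ v s Fin.elim0 = _
    congr 1
    exact Subsingleton.elim _ _
  obtain ⟨Θ, hΘ⟩ := koszul_last j Q (by
      intro s
      rw [hQ, hΨ]
      rfl) (by
      intro i hi s v y
      subst hi
      have h1 := hsd1 (MultilinearMap.uncurryRight
        (M := fun _ : Fin (1 + 1) => UV (RatFunc k))
        ((flipTail y).compMultilinearMap (qOf Ψ))) (by
          intro f hf0 hf1
          change qOf Ψ (fun _ => cl f) (cl (1 - f)) (Fin.cons (cl f) y) = 0
          rw [qOf_apply, ← hsome]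
          exact hφ i rfl f y hf0) s v
      have h2 : qOf Ψ (fun _ => s) v (Fin.cons s y) = 0 := h1
      rw [qOf_apply] at h2
      rw [hQ]
      exact h2)
  refine ⟨ofAlt Θ, fun v => ?_⟩
  have h2 : φ = (ofAlt Θ) ∘ₗ (D.e j) := by
    apply text
    intro x y
    rw [LinearMap.comp_apply]
    rcases x with _ | x
    · rw [hnone, D.e_inf, map_zero]
    · by_cases hx : x = 0
      · subst hx
        rw [D.e_zero, map_zero, hsome, cl_zero, map_zero]
        rfl
      · by_cases hx1 : x = 1
        · subst hx1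
          rw [D.e_one, map_zero, hsome, sub_self, cl_zero, map_zero]
          rfl
        · rw [D.e_some j x y hx hx1, ofAlt_apply, hΘ, hQ, hsome]
  rw [h2]
  rfl

include hk hsd1 in
theorem inj_e : Function.Injective (D.e 0) := by
  apply injective_of_dual
  intro φ
  exact step_e1 k p hk hsd1 D 0 φ (fun i hi => by omega)

include hk hsd1 in
theorem exact_e (j : ℕ) : Function.Exact (D.d 0 j) (D.e (j + 1)) := by
  apply exact_of_dual
  · have h0 : (D.e (j + 1)) ∘ₗ (D.d 0 j) = 0 := by
      apply text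
      intro x y
      rw [LinearMap.comp_apply]
      rcases x with _ | x
      · rw [D.d_inf, map_zero, LinearMap.zero_apply]
      · by_cases hx : x = 0
        · subst hx
          rw [D.d_zero, map_zero, LinearMap.zero_apply]
        · rw [D.d_some _ _ _ _ hx, LinearMap.zero_apply]
          by_cases hx1 : x = 1
          · subst hx1
            exact D.e_one _ _
          · rw [D.e_some _ _ _ hx hx1]
            unfold lq
            have h1 : exteriorPower.ιMulti ℤ (j + 1 + 2)
                (Fin.cons (cl (1 - x)) (Fin.cons (cl x)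
                  (Fin.cons (cl x) y : Fin (j + 1) → UV (RatFunc k)) :
                    Fin (j + 1 + 1) → UV (RatFunc k))) = 0 :=
              AlternatingMap.map_eq_zero_of_eq _ _ (i := ⟨1, by omega⟩) (j := ⟨2, by omega⟩)
                (by rfl) (by simp [Fin.ext_iff])
            rw [h1, TensorProduct.tmul_zero]
    intro u
    exact LinearMap.congr_fun h0 u
  · intro φ hφ
    apply step_e1 k p hk hsd1 D (j + 1) φ
    intro i hi x y hx
    obtain rfl : j = i := by omega
    have h1 := hφ (tq (RatFunc k) (0 + 3) j (some x) y)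
    rw [D.d_some _ _ _ _ hx] at h1
    exact h1

include hsd0 in
theorem surj_e (j : ℕ) : Function.Surjective (D.e j) := by
  apply surjective_of_dual
  intro χ hχ
  apply lext
  intro z
  rw [LinearMap.zero_apply, ← toAlt_apply]
  have h1 : ∀ (y : Fin j → UV (RatFunc k)) (s v : UV (RatFunc k)),
      toAlt χ (Fin.cons v (Fin.cons s y)) = 0 := by
    intro y s v
    have h2 := hsd0 (MultilinearMap.ofSubsingleton ℤ (UV (RatFunc k))
      (UV (RatFunc k) →ₗ[ℤ] ℚ) (0 : Fin 1)
      (LinearMap.flip ((evalTail y) ∘ₗ (toAlt χ).curryLeft))) (by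
        intro f hf0 hf1
        change toAlt χ (Fin.cons (cl (1 - f)) (Fin.cons (cl f) y)) = 0
        rw [toAlt_apply, ← D.e_some j f y hf0 hf1]
        exact hχ _) s v
    exact h2
  have h3 := h1 (Fin.tail (Fin.tail z)) (Fin.tail z 0) (z 0)
  rwa [Fin.cons_self_tail, Fin.cons_self_tail] at h3

end Main

end Pool.Agent.N689.GA
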